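import Pool.Agent.Y929.ZS.Diag

/-! SU-ROOTU (job 9696, helper961 for helper142): the eigenbasis -/

set_option autoImplicit false
set_option linter.unusedSectionVars false

open Matrix

namespace Pool.Agent.Y961.SU

open Pool.Agent.Y929.ZS (EE sep)

section

variable {F ι : Type} [Field F] [CharZero F] [Fintype ι] [DecidableEq ι]

/-- the data in the eigenbasis -/
structure Dat (x : ι → F) (c : F) (J : Matrix ι ι F) (s : ι → ι) (T : ι → ι → Prop)
    (𝔤 : Submodule F (Matrix ι ι F)) : Prop where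
  x0 : ∀ a, x a ≠ 0
  xs : ∀ a, x a * x (s a) = c
  ss : ∀ a, s (s a) = a
  Jz : ∀ a b, b ≠ s a → J a b = 0
  Jn : ∀ a, J a (s a) ≠ 0
  Tr : ∀ a, T a a
  Ts : ∀ a b, T a b → T b a
  Tt : ∀ a b d, T a b → T b d → T a d
  Tn : ∀ a b, T a b → a ≠ s b
  gen : ∀ a b d e, a ≠ b → x a * x e = x d * x b → (d = a ∧ e = b) ∨ (d = s b ∧ e = s a)
  sim : ∀ Z ∈ 𝔤, ∃ μ : F, Zᵀ * J + J * Z = μ • J
  br : ∀ X ∈ 𝔤, ∀ Y ∈ 𝔤, X * Y - Y * X ∈ 𝔤
  ad : ∀ Z ∈ 𝔤, (Matrix.of fun a b => x a / x b * Z a b) ∈ 𝔤
  zero : ∀ Z ∈ 𝔤, ∀ a b, Z a b ≠ 0 → T a b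
  full : ∀ a b, T a b → ∀ W : Submodule F (ι → F), (∀ Z ∈ 𝔤, ∀ w ∈ W, Z *ᵥ w ∈ W) →
    Pi.single b (1 : F) ∈ W → Pi.single a (1 : F) ∈ W

variable {x : ι → F} {c : F} {J : Matrix ι ι F} {s : ι → ι} {T : ι → ι → Prop}
  {𝔤 : Submodule F (Matrix ι ι F)}

theorem rel (h : Dat x c J s T 𝔤) {Z : Matrix ι ι F} {μ : F} (hZ : Zᵀ * J + J * Z = μ • J)
    (a b : ι) :
    J b (s b) * Z b a + J a (s a) * Z (s a) (s b) = μ * (if s b = s a then J a (s a) else 0) := by
  have h1 := congrFun (congrFun hZ a) (s b)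
  simp only [Matrix.add_apply, Matrix.mul_apply, Matrix.transpose_apply, Matrix.smul_apply,
    smul_eq_mul] at h1
  rw [Finset.sum_eq_single b, Finset.sum_eq_single (s a)] at h1
  · rw [mul_comm (J b (s b)) (Z b a), h1]
    congr 1
    by_cases hab : s b = s a
    · rw [if_pos hab, hab]
    · rw [if_neg hab, h.Jz _ _ hab]
  · intro k _ hk
    rw [h.Jz a k hk, zero_mul]
  · intro hk
    exact absurd (Finset.mem_univ _) hk
  · intro k _ hk
    have : s b ≠ s k := by
      intro h2
      apply hk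
      rw [← h.ss k, ← h2, h.ss]
    rw [h.Jz k (s b) this, mul_zero]
  · intro hk
    exact absurd (Finset.mem_univ _) hk

/-- polynomials in the adjoint action -/
theorem ad_poly (h : Dat x c J s T 𝔤) {Z : Matrix ι ι F} (hZ : Z ∈ 𝔤) (p : Polynomial F) :
    (Matrix.of fun a b => p.eval (x a / x b) * Z a b) ∈ 𝔤 := by
  induction p using Polynomial.induction_on with
  | C r =>
    have : (Matrix.of fun a b => (Polynomial.C r).eval (x a / x b) * Z a b) = r • Z := by
      ext a b
      simp
    rw [this]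
    exact 𝔤.smul_mem _ hZ
  | add p q hp hq =>
    have : (Matrix.of fun a b => (p + q).eval (x a / x b) * Z a b) =
        (Matrix.of fun a b => p.eval (x a / x b) * Z a b) +
        (Matrix.of fun a b => q.eval (x a / x b) * Z a b) := by
      ext a b
      simp [add_mul]
    rw [this]
    exact 𝔤.add_mem hp hq
  | monomial n r hp =>
    have h1 := h.ad _ hp
    have : (Matrix.of fun a b => (Polynomial.C r * Polynomial.X ^ (n + 1)).eval (x a / x b) * Z a b) =
        (Matrix.of fun a b => x a / x b * (Matrix.of fun a b =>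
          (Polynomial.C r * Polynomial.X ^ n).eval (x a / x b) * Z a b) a b) := by
      ext a b
      simp only [Matrix.of_apply, Polynomial.eval_mul, Polynomial.eval_C, Polynomial.eval_pow,
        Polynomial.eval_X]
      ring
    rw [this]
    exact h1

/-- STEP 1 -/
theorem root_of (h : Dat x c J s T 𝔤) {Z : Matrix ι ι F} (hZ : Z ∈ 𝔤) {a b : ι} (hab : a ≠ b)
    (hne : Z a b ≠ 0) : EE J s a b ∈ 𝔤 := by
  classical
  have hT := h.zero Z hZ a b hne
  have hb : b ≠ s a := h.Tn _ _ (h.Ts _ _ hT)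
  obtain ⟨p, hp1, hp2⟩ := sep (x a / x b)
    (Finset.univ.image fun q : ι × ι => x q.1 / x q.2)
  have h1 := ad_poly h hZ p
  obtain ⟨μ, hμ⟩ := h.sim Z hZ
  have hjb := h.Jn b
  have hrel : Z (s b) (s a) = -(J a (s a) / J b (s b)) * Z a b := by
    have h2 := rel h hμ b a
    have h3 : s a ≠ s b := by
      intro h4
      apply hab
      rw [← h.ss a, h4, h.ss]
    rw [if_neg h3, mul_zero] at h2
    field_simp
    linear_combination h2
  have hq0 : x (s b) / x (s a) = x a / x b := by
    rw [div_eq_div_iff (h.x0 _) (h.x0 _)]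
    linear_combination h.xs b - h.xs a
  -- the entries
  have hent : ∀ d e, p.eval (x d / x e) * Z d e =
      if (d = a ∧ e = b) ∨ (d = s b ∧ e = s a) then Z d e else 0 := by
    intro d e
    by_cases hq : x d / x e = x a / x b
    · rw [hq, hp1, one_mul]
      rw [div_eq_div_iff (h.x0 e) (h.x0 b)] at hq
      rw [if_pos]
      exact h.gen a b d e hab hq.symm
    · rw [hp2 _ (Finset.mem_image.2 ⟨(d, e), Finset.mem_univ _, rfl⟩) hq, zero_mul, if_neg]
      rintro (⟨rfl, rfl⟩ | ⟨rfl, rfl⟩)
      · exact hq rfl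
      · exact hq hq0
  have h2 : EE J s a b = (Z a b)⁻¹ • (Matrix.of fun d e => p.eval (x d / x e) * Z d e) := by
    ext d e
    simp only [EE, Matrix.of_apply, Matrix.smul_apply, smul_eq_mul]
    rw [hent]
    by_cases hc : d = a ∧ e = b
    · have hc2 : ¬ (d = s b ∧ e = s a) := by
        rintro ⟨-, h4⟩
        exact hb (hc.2.symm.trans h4)
      rw [if_pos hc, if_neg hc2, if_pos (Or.inl hc), hc.1, hc.2]
      field_simp
      ring
    · by_cases hc2 : d = s b ∧ e = s a
      · rw [if_neg hc, if_pos hc2, if_pos (Or.inr hc2), hc2.1, hc2.2, hrel]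
        field_simp
        ring
      · rw [if_neg hc, if_neg hc2, if_neg (by tauto)]
        ring
  rw [h2]
  exact 𝔤.smul_mem _ h1

/-- the root vectors in terms of matrix units -/
theorem EE_eq (a b : ι) : EE J s a b = Matrix.single a b (1 : F) -
    (J a (s a) / J b (s b)) • Matrix.single (s b) (s a) (1 : F) := by
  ext p q
  simp only [EE, Matrix.of_apply, Matrix.sub_apply, Matrix.smul_apply, Matrix.single_apply,
    smul_eq_mul]
  congr 1
  · simp only [eq_comm]
  · simp only [eq_comm]

/-- STEP 2 -/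
theorem tr (h : Dat x c J s T 𝔤) {a b d : ι} (hTab : T a b) (hTbd : T b d) (hab : a ≠ b)
    (_hbd : b ≠ d) (had : a ≠ d)
    (h1 : EE J s a b ∈ 𝔤) (h2 : EE J s b d ∈ 𝔤) : EE J s a d ∈ 𝔤 := by
  classical
  refine root_of h (h.br _ h1 _ h2) had ?_
  have hTad := h.Tt _ _ _ hTab hTbd
  rw [Matrix.sub_apply, Matrix.mul_apply, Matrix.mul_apply]
  have e1 : ∀ k, EE J s a b a k = if k = b then 1 else 0 := by
    intro k
    simp only [EE, Matrix.of_apply]
    rw [if_neg (show ¬ (a = s b ∧ k = s a) from fun h' => h.Tn _ _ hTab h'.1), mul_zero, sub_zero]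
    simp
  have e2 : ∀ k, EE J s b d k d = if k = b then 1 else 0 := by
    intro k
    simp only [EE, Matrix.of_apply]
    rw [if_neg (show ¬ (k = s d ∧ d = s b) from
      fun h' => h.Tn _ _ (h.Ts _ _ hTbd) h'.2), mul_zero, sub_zero]
    simp
  have e3 : ∀ k, EE J s b d a k = 0 := by
    intro k
    simp only [EE, Matrix.of_apply]
    rw [if_neg (show ¬ (a = b ∧ k = d) from fun h' => hab h'.1),
      if_neg (show ¬ (a = s d ∧ k = s b) from fun h' => h.Tn _ _ hTad h'.1)]
    ring
  simp only [e1, e2, e3]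
  simp

/-- STEP 3 -/
theorem all_off (h : Dat x c J s T 𝔤) (a b : ι) (hab : a ≠ b) (hT : T a b) :
    EE J s a b ∈ 𝔤 := by
  classical
  let W : Submodule F (ι → F) :=
    { carrier := {w | ∀ d, w d ≠ 0 → d = b ∨ (T d b ∧ EE J s d b ∈ 𝔤)}
      add_mem' := by
        intro v w hv hw d hd
        by_cases h1 : v d = 0
        · refine hw d fun h2 => hd ?_
          rw [Pi.add_apply, h1, h2, add_zero]
        · exact hv d h1
      zero_mem' := fun d hd => absurd rfl hd
      smul_mem' := by
        intro r v hv d hd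
        refine hv d fun h1 => hd ?_
        rw [Pi.smul_apply, h1, smul_zero] }
  have hW : ∀ w, w ∈ W ↔ ∀ d, w d ≠ 0 → d = b ∨ (T d b ∧ EE J s d b ∈ 𝔤) := fun w => Iff.rfl
  have hst : ∀ Z ∈ 𝔤, ∀ w ∈ W, Z *ᵥ w ∈ W := by
    intro Z hZ w hw
    rw [hW] at hw ⊢
    intro d hd
    by_cases hdb : d = b
    · exact Or.inl hdb
    right
    have h1 : (Z *ᵥ w) d = ∑ e, Z d e * w e := rfl
    rw [h1] at hd
    obtain ⟨e, -, he⟩ := Finset.exists_ne_zero_of_sum_ne_zero hd
    have hZe : Z d e ≠ 0 := left_ne_zero_of_mul he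
    have hwe : w e ≠ 0 := right_ne_zero_of_mul he
    have hTde := h.zero Z hZ d e hZe
    by_cases hde : d = e
    · rcases hw e hwe with h2 | h2
      · exact absurd (hde.trans h2) hdb
      · rw [hde]
        exact h2
    · have h3 := root_of h hZ hde hZe
      rcases hw e hwe with h2 | ⟨h2, h4⟩
      · rw [← h2]
        exact ⟨hTde, h3⟩
      · refine ⟨h.Tt _ _ _ hTde h2, ?_⟩
        by_cases heb : e = b
        · rw [← heb]
          exact h3
        · exact tr h hTde h2 hde heb hdb h3 h4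
  have h2 : Pi.single b (1 : F) ∈ W := by
    rw [hW]
    intro d hd
    left
    by_contra hne
    exact hd (Pi.single_eq_of_ne hne 1)
  have h3 := h.full a b hT W hst h2
  rcases (hW _).1 h3 a (by rw [Pi.single_eq_same]; exact one_ne_zero) with h4 | h4
  · exact absurd h4 hab
  · exact h4.2

/-- STEP 4 -/
theorem all_diag (h : Dat x c J s T 𝔤) (a b : ι) (hT : T a b) :
    EE J s a a - EE J s b b ∈ 𝔤 := by
  classical
  by_cases hab : a = b
  · rw [hab, sub_self]
    exact 𝔤.zero_mem
  have h1 := all_off h a b hab hT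
  have h2 := all_off h b a (Ne.symm hab) (h.Ts _ _ hT)
  have h3 := h.br _ h1 _ h2
  have hja := h.Jn a
  have hjb := h.Jn b
  have n1 : b ≠ s a := h.Tn _ _ (h.Ts _ _ hT)
  have n2 : a ≠ s b := h.Tn _ _ hT
  have h4 : EE J s a a - EE J s b b =
      EE J s a b * EE J s b a - EE J s b a * EE J s a b := by
    have r1 : J a (s a) / J b (s b) * (J b (s b) / J a (s a)) = 1 := by field_simp
    have r2 : J b (s b) / J a (s a) * (J a (s a) / J b (s b)) = 1 := by field_simp
    rw [EE_eq, EE_eq, EE_eq, EE_eq, div_self hja, div_self hjb, one_smul, one_smul]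
    simp only [sub_mul, mul_sub, Matrix.smul_mul, Matrix.mul_smul,
      Matrix.single_mul_single_same, Matrix.single_mul_single_of_ne _ _ _ _ n1,
      Matrix.single_mul_single_of_ne _ _ _ _ n2, Matrix.single_mul_single_of_ne _ _ _ _ n1.symm,
      Matrix.single_mul_single_of_ne _ _ _ _ n2.symm, smul_zero, sub_zero, mul_one, smul_smul, r1,
      r2, one_smul]
    abel
  rw [h4]
  exact h3

/-- the theorem in the eigenbasis -/
theorem diag (h : Dat x c J s T 𝔤) (X : Matrix ι ι F) (hX : Xᵀ * J + J * X = 0)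
    (hXT : ∀ a b, X a b ≠ 0 → T a b) (e : ι → ι → F) (he1 : ∀ a b, T a b → e a b = 1)
    (he0 : ∀ a b, ¬ T a b → e a b = 0) (htr : ∀ a, ∑ b, e a b * X b b = 0) : X ∈ 𝔤 := by
  classical
  have hrel : ∀ a b, X (s b) (s a) = -(J a (s a) / J b (s b)) * X a b := by
    intro a b
    have h2 := rel h (Z := X) (μ := 0) (by rw [hX, zero_smul]) b a
    rw [zero_mul] at h2
    have hjb := h.Jn b
    field_simp
    linear_combination h2
  have h1 : X = ((1 : F) / 2) • ∑ a, ∑ b, X a b • EE J s a b := by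
    ext d e
    rw [Matrix.smul_apply, Matrix.sum_apply]
    simp only [Matrix.sum_apply, Matrix.smul_apply, smul_eq_mul, EE, Matrix.of_apply]
    have g1 : ∀ a b, X a b * ((if d = a ∧ e = b then (1 : F) else 0) -
        J a (s a) / J b (s b) * (if d = s b ∧ e = s a then (1 : F) else 0)) =
        (if d = a then (if e = b then X d e else 0) else 0) +
        (if s e = a then (if s d = b then X d e else 0) else 0) := by
      intro a b
      have g2 : (if d = a ∧ e = b then (1 : F) else 0) * X a b =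
          (if d = a then (if e = b then X d e else 0) else 0) := by
        by_cases hd : d = a <;> by_cases he : e = b <;> simp [hd, he]
      have g3 : -(J a (s a) / J b (s b)) * X a b * (if d = s b ∧ e = s a then (1 : F) else 0) =
          (if s e = a then (if s d = b then X d e else 0) else 0) := by
        by_cases hd : s d = b
        · by_cases he : s e = a
          · have hd' : d = s b := by rw [← hd, h.ss]
            have he' : e = s a := by rw [← he, h.ss]
            rw [if_pos ⟨hd', he'⟩, if_pos he, if_pos hd, mul_one, ← hrel, ← hd', ← he']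
          · rw [if_neg (fun h' => he (by rw [h'.2, h.ss])), if_neg he, mul_zero]
        · rw [if_neg (fun h' => hd (by rw [h'.1, h.ss])), if_neg hd, ite_self, mul_zero]
      rw [← g2, ← g3]
      ring
    simp only [g1, Finset.sum_add_distrib]
    simp
    ring
  -- representatives
  let St : Setoid ι := ⟨T, ⟨h.Tr, fun {a b} hab => h.Ts a b hab,
    fun {a b d} hab hbd => h.Tt a b d hab hbd⟩⟩
  obtain ⟨r, hrT, hr⟩ : ∃ r : ι → ι, (∀ a, T a (r a)) ∧ ∀ a b, T a b → r a = r b := by
    refine ⟨fun a => (Quotient.mk St a).out, fun a => ?_, fun a b hab => ?_⟩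
    · have h2 : St.r ((Quotient.mk St a).out) a := Quotient.mk_out (s := St) a
      exact h.Ts _ _ h2
    · have h2 : Quotient.mk St a = Quotient.mk St b := Quotient.sound (s := St) hab
      simp only [h2]
  have hzero : ∑ a, X a a • EE J s (r a) (r a) = 0 := by
    rw [← Finset.sum_fiberwise Finset.univ r]
    refine Finset.sum_eq_zero fun j _ => ?_
    have h5 : ∑ i ∈ Finset.univ.filter (fun i => r i = j), X i i • EE J s (r i) (r i) =
        (∑ i ∈ Finset.univ.filter (fun i => r i = j), X i i) • EE J s j j := by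
      rw [Finset.sum_smul]
      exact Finset.sum_congr rfl fun i hi => by rw [(Finset.mem_filter.1 hi).2]
    rw [h5]
    by_cases hj : ∃ i0, r i0 = j
    · obtain ⟨i0, hi0⟩ := hj
      have h6 : ∑ i ∈ Finset.univ.filter (fun i => r i = j), X i i = ∑ i, e i0 i * X i i := by
        rw [Finset.sum_filter]
        refine Finset.sum_congr rfl fun i _ => ?_
        by_cases hi : T i0 i
        · rw [he1 _ _ hi, one_mul, if_pos]
          rw [← hi0]
          exact (hr i0 i hi).symm
        · rw [he0 _ _ hi, zero_mul, if_neg]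
          intro h6
          apply hi
          have h7 := hrT i0
          rw [hi0, ← h6] at h7
          exact h.Tt _ _ _ h7 (h.Ts _ _ (hrT i))
      rw [h6, htr, zero_smul]
    · push Not at hj
      rw [Finset.filter_false_of_mem (fun i _ => hj i), Finset.sum_empty, zero_smul]
  have h2 : ∑ a, ∑ b, X a b • EE J s a b =
      ∑ a, ∑ b, (if a = b then 0 else X a b • EE J s a b) +
      ∑ a, X a a • (EE J s a a - EE J s (r a) (r a)) := by
    have h3 : ∑ a, X a a • (EE J s a a - EE J s (r a) (r a)) = ∑ a, X a a • EE J s a a := by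
      rw [← sub_zero (∑ a, X a a • EE J s a a), ← hzero, ← Finset.sum_sub_distrib]
      exact Finset.sum_congr rfl fun a _ => smul_sub _ _ _
    rw [h3, ← Finset.sum_add_distrib]
    refine Finset.sum_congr rfl fun a _ => ?_
    have h4 : X a a • EE J s a a = ∑ b, (if a = b then X a b • EE J s a b else 0) := by
      rw [Finset.sum_ite_eq, if_pos (Finset.mem_univ a)]
    rw [h4, ← Finset.sum_add_distrib]
    refine Finset.sum_congr rfl fun b _ => ?_
    by_cases hab : a = b
    · rw [if_pos hab, if_pos hab, zero_add]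
    · rw [if_neg hab, if_neg hab, add_zero]
  rw [h1, h2]
  refine 𝔤.smul_mem _ (𝔤.add_mem (𝔤.sum_mem fun a _ => 𝔤.sum_mem fun b _ => ?_)
    (𝔤.sum_mem fun a _ => 𝔤.smul_mem _ (all_diag h a (r a) (hrT a))))
  by_cases hab : a = b
  · rw [if_pos hab]
    exact 𝔤.zero_mem
  · rw [if_neg hab]
    by_cases hX0 : X a b = 0
    · rw [hX0, zero_smul]
      exact 𝔤.zero_mem
    · exact 𝔤.smul_mem _ (all_off h a b hab (hXT a b hX0))

end

end Pool.Agent.Y961.SU
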